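import Pool.Agent.Lib.MP_8ac08c_co.Basic
import Pool.Agent.Lib.MP_8ac08c_co.OD.P.ols
import Pool.Agent.Lib.MP_8ac08c_co.OD.P.cov
import Pool.Agent.Lib.MP_8ac08c_co.OD.P.rob
import Pool.Agent.Lib.MP_8ac08c_co.OD.P.fin1
import Pool.Agent.Lib.MP_8ac08c_co.OD.P.sml
import Pool.Agent.Lib.MP_8ac08c_co.OD.P.st
import Pool.Agent.Lib.MP_8ac08c_co.OD.P.par
import Pool.Agent.Lib.MP_8ac08c_co.OD.P.fou
import Pool.Agent.Lib.MP_8ac08c_co.OD.P.chr
import Pool.Agent.Lib.MP_8ac08c_co.OD.P.lin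
import Pool.Agent.Lib.MP_8ac08c_co.OD.P.cc
import Pool.Agent.Lib.MP_8ac08c_co.OD.P.inv
import Pool.Agent.Lib.MP_8ac08c_co.OD.P.ivh
import Pool.Agent.Lib.MP_8ac08c_co.OD.P.big
import Pool.Agent.Lib.MP_8ac08c_co.OD.P.dif
import Pool.Agent.Lib.MP_8ac08c_co.OD.P.bs1
import Pool.Agent.Lib.MP_8ac08c_co.OD.P.bs2
import Pool.Agent.Lib.MP_8ac08c_co.OD.P.bs3
import Pool.Agent.Lib.MP_8ac08c_co.OD.P.sge
import Pool.Agent.Lib.MP_8ac08c_co.OD.P.fin2
import Pool.Agent.Lib.MP_8ac08c_co.OD.P.bez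
import Pool.Agent.Lib.MP_8ac08c_co.OD.P.odd
import Pool.Agent.Lib.MP_8ac08c_co.OD.P.spr
import Pool.Agent.Lib.MP_8ac08c_co.OD.P.sp2
import Pool.Agent.Lib.MP_8ac08c_co.OD.P.jsm
import Pool.Agent.Lib.MP_8ac08c_co.OD.P.rsm
import Pool.Agent.Lib.MP_8ac08c_co.OD.P.c1b
import Pool.Agent.Lib.MP_8ac08c_co.OD.P.spc
import Pool.Agent.Lib.MP_8ac08c_co.OD.P.asm
import Pool.Agent.Lib.MP_8ac08c_co.OD.P.low2

/-!
# MP_8ac08c_co, project OD: the final theorem
-/

set_option autoImplicit false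
set_option exponentiation.threshold 600

open Finset

namespace Pool.Agent.Lib.MP_8ac08c_co.OD

theorem all_inv : C_inv := p_inv p_ols p_st p_par p_fou p_chr p_lin p_cc

theorem all_ivh : C_ivh := p_ivh all_inv

theorem all_sml : C_sml := p_sml p_ols p_cov p_rob p_fin1

theorem all_big : C_big := p_big p_rob p_fin1 all_sml all_ivh

theorem all_bs1 : C_bs1 := p_bs1 p_rob p_dif

theorem all_bs2 : C_bs2 := p_bs2 p_ols p_cov p_dif

theorem all_rsm : C_rsm := p_rsm p_ols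

theorem all_spc : C_spc := p_spc p_ols p_cov p_sp2 p_sge p_fin2 p_jsm all_rsm p_c1b

/-- every set of size `κ + t` has a solution -/
theorem all_sol (G : Type) [AddCommGroup G] [Fintype G] [DecidableEq G] (κ h t : ℕ)
    (hy : Hyp G κ h t) (hκ : 2 ^ 500 ≤ κ) (A : Finset G) (hA : #A = κ + t) : Sol A κ :=
  p_asm all_big all_bs1 all_bs2 p_dif p_bs3 p_sge p_fin2 p_bez p_odd p_spr all_spc G κ h t hy hκ
    A hA

/-- the main theorem -/
theorem all_main (G : Type) [AddCommGroup G] [Finite G] (hodd : Odd (Nat.card G))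
    (hκ : 2 ^ 500 ≤ AddMonoid.exponent G) (hle : Nat.card G ≤ AddMonoid.exponent G ^ 2) :
    tau G (AddMonoid.exponent G) ≤
      AddMonoid.exponent G - 1 + Nat.log 2 (Nat.card G / AddMonoid.exponent G) ∧
    ∀ m : ℕ, m ∣ AddMonoid.exponent G → m ≤ Nat.card G / AddMonoid.exponent G →
      2 ^ Nat.log 2 (Nat.card G / AddMonoid.exponent G) ≤ m →
      tau G (AddMonoid.exponent G) =
        AddMonoid.exponent G - 1 + Nat.log 2 (Nat.card G / AddMonoid.exponent G) := by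
  classical
  have : Fintype G := Fintype.ofFinite G
  set κ := AddMonoid.exponent G with hκdef
  have hκ0 : 0 < κ := lt_of_lt_of_le (by positivity) hκ
  set h := Nat.card G / κ with hh
  have hcard : Nat.card G = h * κ := by
    rw [hh, Nat.div_mul_cancel]
    exact AddGroup.exponent_dvd_nat_card
  have hκodd : Odd κ := by
    rw [hcard] at hodd
    exact (Nat.odd_mul.1 hodd).2
  have hh0 : 0 < h := by
    rcases Nat.eq_zero_or_pos h with h0 | h0
    · rw [h0, zero_mul] at hcard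
      have := Nat.card_pos (α := G)
      omega
    · exact h0
  have hhκ : h ≤ κ := by
    rw [hcard, sq] at hle
    exact Nat.le_of_mul_le_mul_right hle hκ0
  have hy : Hyp G κ h (Nat.log 2 h) :=
    { odd := hκodd
      card := hcard
      le := hhκ
      exp := fun x => AddMonoid.exponent_nsmul_eq_zero x
      lt := Nat.lt_pow_succ_log_self (by norm_num) h
      ge := Nat.pow_log_le_self 2 (by omega) }
  have hup : tau G κ ≤ κ - 1 + Nat.log 2 h := by
    obtain ⟨A, hA, hAc⟩ := exists_tau (G := G) hκ0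
    by_contra hcon
    push Not at hcon
    obtain ⟨B, hBA, hB⟩ := exists_subset_card_eq (n := κ + Nat.log 2 h) (s := A) (by omega)
    obtain ⟨P, N, hP, hN, hd, hc, hs⟩ := all_sol G κ h (Nat.log 2 h) hy hκ B hB
    apply hA
    refine ⟨P, N, hP.trans hBA, hN.trans hBA, hd, hc, ?_⟩
    rw [AddSubgroup.mem_bot, hs, sub_self]
  refine ⟨hup, fun m hdvd hmh hm => le_antisymm hup ?_⟩
  have h1 : m * κ ≤ Nat.card G := by
    rw [hcard]
    exact Nat.mul_le_mul_right κ hmh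
  have h2 := low_dvd p_chr G m hdvd h1
  have h3 : Nat.log 2 h ≤ Nat.log 2 m := by
    have hm0 : m ≠ 0 := by
      rintro rfl
      have : 0 < 2 ^ Nat.log 2 h := by positivity
      omega
    exact Nat.le_log_of_pow_le (by norm_num) hm
  rw [← hκdef] at h2
  omega

end Pool.Agent.Lib.MP_8ac08c_co.OD
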