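import Mathlib
import Pool.Agent.Lib.MP_8ac08c_co.Def
import Pool.Agent.Lib.MP_8ac08c_co.Cover

/-!
# MP_8ac08c_co, project OD: the signed Harborth constant of groups of odd order with `|G| ≤ κ²`

Definitions and basic lemmas. `SG W` is the set of the signed sums of all the elements of `W`;
`bd S x` (in `Cover.lean`) is the number of `s ∈ S` with `s + x ∉ S`; `Lg w s Z` is the group generated
by the signed sums of at most `s` elements of `Z` with signed sum of the weights `w` equal to `0`.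
-/

set_option autoImplicit false

open Finset

namespace Pool.Agent.Lib.MP_8ac08c_co.OD

/-- `A` contains `k` distinct elements with a signed sum `0`. -/
def Sol {G : Type} [AddCommGroup G] (A : Finset G) (k : ℕ) : Prop :=
  ∃ P N : Finset G, P ⊆ A ∧ N ⊆ A ∧ Disjoint P N ∧ #P + #N = k ∧ ∑ x ∈ P, x = ∑ x ∈ N, x

/-- The signed sums of all the elements of `W` (the elements of `P` have the sign `+`, the others
the sign `-`). -/
def SG {G : Type} [AddCommGroup G] [DecidableEq G] (W : Finset G) : Finset G :=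
  W.powerset.image fun P => ∑ x ∈ P, x + ∑ x ∈ P, x - ∑ x ∈ W, x

/-- The general setting: `G` has order `h κ`, `κ G = 0`, `κ` odd, `h ≤ κ`, `t = ⌊log₂ h⌋`. -/
structure Hyp (G : Type) [AddCommGroup G] (κ h t : ℕ) : Prop where
  odd : Odd κ
  card : Nat.card G = h * κ
  le : h ≤ κ
  exp : ∀ x : G, κ • x = 0
  lt : h < 2 ^ (t + 1)
  ge : 2 ^ t ≤ h

/-- The group generated by the signed sums of at most `s` elements of `Z` for which the signed sum
of the weights is `0`. -/
def Lg {G : Type} [AddCommGroup G] (w : G → ℤ) (s : ℕ) (Z : Finset G) : AddSubgroup G :=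
  AddSubgroup.closure {v | ∃ P N : Finset G, P ⊆ Z ∧ N ⊆ Z ∧ Disjoint P N ∧ #P + #N ≤ s ∧
    ∑ x ∈ P, w x = ∑ x ∈ N, w x ∧ v = ∑ x ∈ P, x - ∑ x ∈ N, x}

/-- The elements of `V ⊆ H` have small weights `w`; integer combinations of `V` of weight `0` are
in the small subgroup `H'`; `H` is generated by `V`, even after removing a few elements. -/
structure Strip {G : Type} [AddCommGroup G] [DecidableEq G] (V : Finset G)
    (H H' : AddSubgroup G) (w : G → ℤ) (κ : ℕ) : Prop where
  rob : ∀ V' ⊆ V, 2 ^ 12 * #(V \ V') ≤ κ → AddSubgroup.closure (V' : Set G) = H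
  wt : ∀ a ∈ V, (w a).natAbs ≤ 2 ^ 77
  ker : ∀ n : G → ℤ, ∑ a ∈ V, n a * w a = 0 → ∑ a ∈ V, n a • a ∈ H'
  card' : Nat.card H' ≤ 2 ^ 77 * κ
  card : κ ^ 2 < 5000 * Nat.card H

/-- Modulo `L` the elements `a ∈ V` are the multiples `y a` of `g`; the numbers `y a` are bounded by
`K` and have no common divisor, and each absolute value occurs at least `θ` times. -/
structure Lin {G : Type} [AddCommGroup G] (V : Finset G) (L : AddSubgroup G) (g : G)
    (y : G → ℤ) (K θ : ℕ) : Prop where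
  sub : ∀ a ∈ V, a - y a • g ∈ L
  wt : ∀ a ∈ V, (y a).natAbs ≤ K
  cls : ∀ a ∈ V, θ ≤ #(V.filter fun x => (y x).natAbs = (y a).natAbs)
  gcd : ∀ d : ℕ, (∀ a ∈ V, d ∣ (y a).natAbs) → d = 1

/-- The odd integer between `1` and `κ` which represents `v` or `-v` (`κ` odd). -/
def J {κ : ℕ} (v : ZMod κ) : ℕ := if v.val % 2 = 1 then v.val else κ - v.val

section SG

variable {G : Type} [AddCommGroup G] [DecidableEq G]

theorem mem_SG {W : Finset G} {z : G} :
    z ∈ SG W ↔ ∃ P ⊆ W, ∑ x ∈ P, x + ∑ x ∈ P, x - ∑ x ∈ W, x = z := by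
  unfold SG
  rw [mem_image]
  constructor
  · rintro ⟨P, hP, h⟩
    exact ⟨P, mem_powerset.1 hP, h⟩
  · rintro ⟨P, hP, h⟩
    exact ⟨P, mem_powerset.2 hP, h⟩

/-- signed sums as differences -/
theorem mem_SG' {W : Finset G} {z : G} :
    z ∈ SG W ↔ ∃ P N : Finset G, Disjoint P N ∧ P ∪ N = W ∧ ∑ x ∈ P, x - ∑ x ∈ N, x = z := by
  rw [mem_SG]
  constructor
  · rintro ⟨P, hP, h⟩
    refine ⟨P, W \ P, disjoint_sdiff, union_sdiff_of_subset hP, ?_⟩
    rw [← h, ← sum_sdiff hP]
    abel
  · rintro ⟨P, N, hd, hu, h⟩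
    refine ⟨P, by rw [← hu]; exact subset_union_left, ?_⟩
    rw [← h, ← hu, sum_union hd]
    abel

theorem SG_empty : SG (∅ : Finset G) = {0} := by
  unfold SG
  simp

theorem zero_mem_SG_empty : (0 : G) ∈ SG (∅ : Finset G) := by
  rw [SG_empty]
  exact mem_singleton_self 0

theorem neg_mem_SG {W : Finset G} {z : G} (h : z ∈ SG W) : -z ∈ SG W := by
  rw [mem_SG'] at h ⊢
  obtain ⟨P, N, hd, hu, h⟩ := h
  refine ⟨N, P, hd.symm, by rw [union_comm]; exact hu, ?_⟩
  rw [← h]
  abel

theorem mem_SG_union {W W' : Finset G} (hd : Disjoint W W') {z : G} :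
    z ∈ SG (W ∪ W') ↔ ∃ a ∈ SG W, ∃ b ∈ SG W', a + b = z := by
  constructor
  · intro h
    rw [mem_SG] at h
    obtain ⟨P, hP, h⟩ := h
    refine ⟨_, mem_SG.2 ⟨P ∩ W, inter_subset_right, rfl⟩, _,
      mem_SG.2 ⟨P ∩ W', inter_subset_right, rfl⟩, ?_⟩
    have h1 : P = (P ∩ W) ∪ (P ∩ W') := by
      rw [← inter_union_distrib_left]
      exact (inter_eq_left.2 hP).symm
    have h2 : Disjoint (P ∩ W) (P ∩ W') :=
      Disjoint.mono inter_subset_right inter_subset_right hd
    have h3 : ∑ x ∈ P, x = ∑ x ∈ P ∩ W, x + ∑ x ∈ P ∩ W', x := by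
      rw [← sum_union h2, ← h1]
    rw [← h, h3, sum_union hd]
    abel
  · rintro ⟨a, ha, b, hb, rfl⟩
    rw [mem_SG] at ha hb ⊢
    obtain ⟨P, hP, rfl⟩ := ha
    obtain ⟨Q, hQ, rfl⟩ := hb
    refine ⟨P ∪ Q, union_subset_union hP hQ, ?_⟩
    rw [sum_union (Disjoint.mono hP hQ hd), sum_union hd]
    abel

theorem add_mem_SG {W W' : Finset G} (hd : Disjoint W W') {a b : G} (ha : a ∈ SG W)
    (hb : b ∈ SG W') : a + b ∈ SG (W ∪ W') :=
  (mem_SG_union hd).2 ⟨a, ha, b, hb, rfl⟩

theorem mem_SG_single {a z : G} : z ∈ SG ({a} : Finset G) ↔ z = a ∨ z = -a := by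
  rw [mem_SG]
  constructor
  · rintro ⟨P, hP, h⟩
    rcases subset_singleton_iff.1 hP with rfl | rfl
    · right
      rw [← h]
      simp
    · left
      rw [← h]
      simp
  · rintro (rfl | rfl)
    · exact ⟨{z}, Subset.refl _, by simp⟩
    · exact ⟨∅, empty_subset _, by simp⟩

theorem SG_nonempty (W : Finset G) : (SG W).Nonempty :=
  ⟨_, mem_SG.2 ⟨∅, empty_subset _, rfl⟩⟩

/-- a signed sum `0` of `k` elements is a solution -/
theorem sol_of_SG {A W : Finset G} {k : ℕ} (hW : W ⊆ A) (hk : #W = k) (h : (0 : G) ∈ SG W) :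
    Sol A k := by
  rw [mem_SG'] at h
  obtain ⟨P, N, hd, hu, h⟩ := h
  refine ⟨P, N, ?_, ?_, hd, ?_, sub_eq_zero.1 h⟩
  · exact (subset_union_left.trans (le_of_eq hu)).trans hW
  · exact (subset_union_right.trans (le_of_eq hu)).trans hW
  · rw [← card_union_of_disjoint hd, hu, hk]

/-- the general form of a gadget: a signed sum of `P ∪ N` -/
theorem sub_mem_SG {P N : Finset G} (hd : Disjoint P N) :
    ∑ x ∈ P, x - ∑ x ∈ N, x ∈ SG (P ∪ N) := mem_SG'.2 ⟨P, N, hd, rfl, rfl⟩

/-- all elements in a subgroup: the signed sums are in the subgroup -/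
theorem SG_sub {W : Finset G} {K : AddSubgroup G} (h : ∀ x ∈ W, x ∈ K) {z : G} (hz : z ∈ SG W) :
    z ∈ K := by
  rw [mem_SG] at hz
  obtain ⟨P, hP, rfl⟩ := hz
  exact K.sub_mem (K.add_mem (sum_mem fun x hx => h x (hP hx)) (sum_mem fun x hx => h x (hP hx)))
    (sum_mem h)

end SG

section Fin

variable {G : Type} [AddCommGroup G] [Fintype G] [DecidableEq G]

omit [Fintype G] in
/-- The growth step: one more gadget `D` with the signed sum `v`. -/
theorem SG_grow {S W D : Finset G} (hS : S ⊆ SG W) (hd : Disjoint W D) {v : G} (hv : v ∈ SG D) :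
    (S.image fun x => x + v) ∪ (S.image fun x => x - v) ⊆ SG (W ∪ D) ∧
    #((S.image fun x => x + v) ∪ (S.image fun x => x - v)) = #S + bd S (v + v) := by
  constructor
  · intro z hz
    rw [mem_union, mem_image, mem_image] at hz
    rcases hz with ⟨x, hx, rfl⟩ | ⟨x, hx, rfl⟩
    · exact add_mem_SG hd (hS hx) hv
    · rw [sub_eq_add_neg]
      exact add_mem_SG hd (hS hx) (neg_mem_SG hv)
  · have h1 : (S.image fun x => x + v) ∪ (S.image fun x => x - v) =
        (S.image fun x => x - v) ∪ ((S.filter fun s => s + (v + v) ∉ S).image fun x => x + v) := by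
      ext z
      simp only [mem_union, mem_image, mem_filter]
      constructor
      · rintro (⟨x, hx, rfl⟩ | ⟨x, hx, rfl⟩)
        · by_cases h : x + (v + v) ∈ S
          · left
            exact ⟨_, h, by abel⟩
          · right
            exact ⟨x, ⟨hx, h⟩, rfl⟩
        · left
          exact ⟨x, hx, rfl⟩
      · rintro (⟨x, hx, rfl⟩ | ⟨x, ⟨hx, _⟩, rfl⟩)
        · right
          exact ⟨x, hx, rfl⟩
        · left
          exact ⟨x, hx, rfl⟩
    rw [h1, card_union_of_disjoint, card_image_of_injective _ (sub_left_injective),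
      card_image_of_injective _ (add_left_injective v)]
    · rfl
    · rw [disjoint_left]
      intro z hz hz'
      rw [mem_image] at hz hz'
      obtain ⟨x, hx, rfl⟩ := hz
      obtain ⟨x', hx', h⟩ := hz'
      rw [mem_filter] at hx'
      apply hx'.2
      have : x' + (v + v) = x := by
        rw [← add_assoc, h]
        abel
      rw [this]
      exact hx

end Fin

end Pool.Agent.Lib.MP_8ac08c_co.OD
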