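import Pool.Agent.Lib.MP_8ac08c_co.OD.Defs

/-!
# MP_8ac08c_co, project OD: `τ±(G, κ) ≤ κ - 1 + ⌊log₂ (|G| / κ)⌋` for odd order and `|G| ≤ κ²`

Statements of the pieces, with complete proofs in words. Every piece is a theorem `p_xxx : S_xxx` in
the file `OD/P/xxx.lean` (namespace `Pool.Agent.Lib.MP_8ac08c_co.OD`). A piece which uses other
pieces is stated as an implication or takes them as hypotheses.

Structure of the proof. `|G| = h κ`, `|A| = κ + t`, `2 ^ (t + 1) > h`; we look for `κ` distinct elements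
of `A` with a signed sum `0`. (1) If a subgroup `K` with `|A \ K|` small is covered by the signed sums
of a small subset of `A ∩ K`, take the largest signed zero-sum modulo `K` in `A \ K` (`fin1`). By
Olson's growth argument (`ols`, `cov`, `rob`) this settles the case that most of `A` is in a group
`K` with `|K| ≤ κ² / 5000` (`sml`). (2) Otherwise most of `A` is in a group `H` which it generates
robustly. Take a few elements `U` of `A` such that the set `S` of the signed sums has positive density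
in `H` and no element of the rest makes it grow by more than `C |H| / κ` (`st`). If two disjoint such
`S` have more than half of the elements we are back in (1). Otherwise `S` has a large Fourier
coefficient (`fou`), and the character `φ : H → Z_κ` satisfies `|φ(a)| ≤ 2^77` for all other `a`
(`lin`, `cc`, `inv`, `ivh`, `big`). (3) Let `L` be the group generated by the signed sums of short
relations between the integers `φ(a)`; it is covered robustly (`dif`, `bs1`, `bs2`), and modulo `L`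
almost all elements are multiples `y g` with bounded integers `y` (`bs3`). (4) If there is a signed
zero-sum modulo `L` with an odd number of elements, a maximal one gives a solution (`sge`, `fin2`).
There is one (`bez`, `odd`) unless `G / L` is cyclic of order `κ` and `95` percent of `A` are
`± g` modulo `L` (`asm`, `spr`). (5) In this case there is again an odd zero-sum or a direct
construction (`sp2`, `jsm`, `rsm`, `c1b`, `spc`).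
-/

set_option autoImplicit false

open Finset

namespace Pool.Agent.Lib.MP_8ac08c_co.OD

/-! ## A. Growth -/

/-- [OD ols] Weak form of a lemma of Olson. PROOF. Let `N = |Γ|` and `m = max_{x ∈ C} bd S x`.
(a) Suppose first `2 #S ≤ N`. For a finite set `B` with `#B ≥ 2 #S`:
`∑_{y ∈ B} #{s ∈ S | s + y ∈ S} ≤ (#S)²` (for each `s ∈ S` there are at most `#S` such `y`), and
`#{s ∈ S | s + y ∈ S} = #S - bd S y`, so `∑_{y ∈ B} bd S y ≥ #B #S - (#S)² ≥ #B #S / 2` and there is a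
`y ∈ B` with `2 bd S y ≥ #S`. If `2 #S ≤ #C` take `B = C`: `2 m ≥ #S`, `16 m ≥ 8 #S`. Otherwise let `n ≥ 1`
be such that `n #C < 2 #S ≤ (n + 1) #C`, and `B = ball C (3 n + 1)` (`Cover.lean`); by `ball_card`,
`#B ≥ 2 #S` (in the first case of `ball_card` `B = univ`). For `y ∈ B`, `bd S y ≤ (3 n + 1) m`
(`bd_ball` with `k = 1`). So `2 (3 n + 1) m ≥ #S`, and
`16 m ≥ 8 #S / (3 n + 1) ≥ 2 #S / n > #C` (`8 n ≥ 2 (3 n + 1)` as `n ≥ 1`). (b) If `2 #S > N` use (a)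
for the complement `S'` of `S` (if it is empty there is nothing to prove, take `x = 0`): `bd S' x = bd S x`,
because `#{s ∈ S | s + x ∈ S} + #{s ∈ S' | s + x ∈ S}` is the number of all `s` with `s + x ∈ S`, which
is `#S = #{s ∈ S | s + x ∈ S} + bd S x`. -/
def S_ols : Prop := ∀ (Γ : Type) [AddCommGroup Γ] [Fintype Γ] [DecidableEq Γ] (C S : Finset Γ),
  (∀ x ∈ C, -x ∈ C) → (0 : Γ) ∈ C → AddSubgroup.closure (C : Set Γ) = ⊤ → S.Nonempty →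
  ∃ x ∈ C, min (8 * #S) (min (8 * (Fintype.card Γ - #S)) #C) ≤ 16 * bd S x

/-- [OD cov] Covering a subgroup `L` by the signed sums of few small sets (gadgets) `D`. PROOF. Let
`l = |L|`, `x = log₂ l`. Claim: for all `j ≤ m + 4 x + 8` there are `R ⊆ Y`, `#R ≤ j s`, and `S ⊆ SG R`,
`S ⊆ L`, `0 < #S`, such that either `S = L` or `j` steps of growth have been made as described now. Start with
`R = ∅`, `S = {0}`. Given `R` and `S ≠ L`: `#R ≤ b`, take `C` from the hypothesis for `U = R`. Apply `S_ols` in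
the group `L` (a type; take `S` and `C' = {2 v, -2 v | v ∈ C} ∪ {0}` as finite sets of elements of `L`;
`closure C' = L` because `closure C = L` and `|L|` is odd (`v` is a multiple of `2 v`); `#C' ≥ #C ≥ c` as
`v ↦ 2 v` is injective): there is `v ∈ C` or `-v ∈ C` (or `v = 0`) with
`min (8 #S, 8 (l - #S), c) ≤ 16 bd S (2 v)`. With the `D` of `v`, disjoint from `R`, replace `R` by `R ∪ D` and
`S` by `(S + v) ∪ (S - v)`, of size `#S + bd S (2 v)` (`SG_grow`; for `-v` note `SG D = - SG D`). How many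
steps are necessary? (A) while `2 #S ≤ l` and `8 #S ≤ c`: `#S` grows by the factor `3/2`, at most
`2 x + 2` steps, because `(9/4)^(x+1) ≥ 2^(x+1) > l`. (B) while `2 #S ≤ l` and `8 #S > c`: growth at least
`c / 16`, at most `m / 2 + 1` steps (`16 l ≤ c m`). (C) while `2 #S > l` and `8 (l - #S) ≥ c`: growth
`≥ c / 16`, at most `m / 2 + 1` steps. (D) while `8 (l - #S) < c`, `2 #S > l`: `l - #S` becomes at most
half of it, at most `x + 1` steps until it is `0`. In total at most `m + 3 x + 5`. -/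
def S_cov : Prop := S_ols → ∀ (G : Type) [AddCommGroup G] [Fintype G] [DecidableEq G]
  (L : AddSubgroup G) (Y : Finset G) (s b c m : ℕ), Odd (Nat.card L) → 0 < c →
  (∀ U : Finset G, #U ≤ b → ∃ C : Finset G, c ≤ #C ∧ (∀ v ∈ C, v ∈ L ∧
    ∃ D ⊆ Y, Disjoint D U ∧ #D ≤ s ∧ v ∈ SG D) ∧ AddSubgroup.closure (C : Set G) = L) →
  16 * Nat.card L ≤ c * m → (m + 4 * Nat.log 2 (Nat.card L) + 8) * s ≤ b →
  ∃ R ⊆ Y, #R ≤ (m + 4 * Nat.log 2 (Nat.card L) + 8) * s ∧ ∀ z ∈ L, z ∈ SG R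

/-- [OD rob] Robust subgroups. PROOF. Write `|Z|' = Nat.card (gen Z)` and
`F Z = 2 a |Z|' + b log₂ |Z|'`. (1) Among all `Z ⊆ V` with `d #(V \ Z) + F Z ≤ F V` (for instance `Z = V`)
choose one with `|Z|'` minimal. If `Z' ⊆ Z`, `d #(Z \ Z') ≤ a |Z|' + b` and `gen Z' ≠ gen Z`, then `gen Z' < gen Z`,
so `2 |Z'|' ≤ |Z|'` (the index is at least two), `log₂ |Z'|' + 1 ≤ log₂ |Z|'`, and
`F Z' + a |Z|' + b ≤ F Z`; so `d #(V \ Z') + F Z' ≤ d #(V \ Z) + a |Z|' + b + F Z' ≤ d #(V \ Z) + F Z ≤ F V`,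
a contradiction to the minimality. (2) Among all `Z ⊆ V` with `#(V \ Z) + b log₂ |Z|' ≤ b log₂ |V|'` and
`#(V \ Z) ≤ (M + 1) b` choose one with `|Z|'` minimal. By hypothesis `log₂ |V|' ≤ log₂ |Z|' + M`, so
`#(V \ Z) ≤ M b`. If `Z' ⊆ Z`, `#(Z \ Z') ≤ b`, `gen Z' ≠ gen Z`, then `Z'` also satisfies both conditions and
`|Z'|' < |Z|'`, a contradiction. -/
def S_rob : Prop := ∀ (G : Type) [AddCommGroup G] [Finite G] (α : Type) [DecidableEq α]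
  (gen : Finset α → AddSubgroup G), (∀ Z Z', Z ⊆ Z' → gen Z ≤ gen Z') → ∀ (V : Finset α),
  (∀ d a b : ℕ, ∃ Z ⊆ V, d * #(V \ Z) + (2 * a * Nat.card (gen Z) +
      b * Nat.log 2 (Nat.card (gen Z))) ≤
    2 * a * Nat.card (gen V) + b * Nat.log 2 (Nat.card (gen V)) ∧
    ∀ Z' ⊆ Z, d * #(Z \ Z') ≤ a * Nat.card (gen Z) + b → gen Z' = gen Z) ∧
  (∀ b M : ℕ, (∀ Z ⊆ V, #(V \ Z) ≤ (M + 1) * b →
      Nat.log 2 (Nat.card (gen V)) ≤ Nat.log 2 (Nat.card (gen Z)) + M) →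
    ∃ Z ⊆ V, #(V \ Z) ≤ M * b ∧ ∀ Z' ⊆ Z, #(Z \ Z') ≤ b → gen Z' = gen Z)

/-- [OD fin1] A subgroup `K` which contains almost all elements of `A` and is covered by few of
them. PROOF. `|G|` is odd (a prime `2` dividing it would give an element of order `2`, but `κ` is odd
and kills `G`), so `|K|` and `|G/K|` are odd. Let `A_K` be the set of the elements of `A` in `K` (it
contains `Z`) and `X = A \ A_K`. Among the `W ⊆ X` such that `SG W` contains an element `z ∈ K` (`W = ∅` is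
one) choose one with `#W` maximal; `C = X \ W`. (a) `2 ^ #C ≤ |G/K|`: the map `S ↦ ∑ S mod K` is injective on the
subsets of `C`: if `∑ S ≡ ∑ S'`, `S ≠ S'`, then `D = (S \ S') ∪ (S' \ S) ≠ ∅` has the signed sum
`∑ S - ∑ S' ∈ K` and `W ∪ D` is larger. (b) If `W ≠ ∅` then `2 ^ (#C + 1) ≤ |G/K|`: let `w ∈ W`, and let
`z ∈ SG W ∩ K` where `w` has the sign `ε`. Consider `(δ, S) ↦ δ (2 w) + ∑ S mod K` for `δ ∈ {0, 1}`,
`S ⊆ C`. If two different pairs have the same image then (as `2 w ∉ K`, because `w ∉ K` and `|G/K|` is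
odd, and by (a)) they have different `δ` and different `S`: `2 w + ∑ S - ∑ S' ∈ K`, `S ≠ S'`. Changing the sign of
`w` gives `z - 2 ε w ∈ SG W`, and adding `± (∑ S - ∑ S')` gives again an element of `K` in `SG (W ∪ D)`,
contradiction. (c) `|G/K| |K| = h κ` and `κ ≤ 2 |K|` give `|G/K| ≤ 2 h < 2 ^ (t + 2)`. So `#C ≤ t + 1`, and
`#C ≤ t` if `W ≠ ∅`. If `W = ∅` and `#C = t + 1` then `#A_K = κ - 1 ≤ |K|`; `|K|` is odd and `κ - 1` even, so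
`|K| ≥ κ` and `|G/K| ≤ h < 2 ^ (t + 1)`, contradiction to (a). So `#C ≤ t` and `#A_K + #W ≥ κ`. (d) Also
`#W ≤ #X ≤ #(A \ Z)`, so `#R ≤ κ - #W ≤ #A_K`. Choose `B` with `R ⊆ B ⊆ A_K`, `#B = κ - #W`. The sum of `z` and of
all elements of `B \ R` is in `K`; its negative is in `SG R`. So `0 ∈ SG (W ∪ B)`, `sol_of_SG`. -/
def S_fin1 : Prop := ∀ (G : Type) [AddCommGroup G] [Fintype G] [DecidableEq G] (κ h t : ℕ),
  Hyp G κ h t → ∀ (A Z R : Finset G) (K : AddSubgroup G), #A = κ + t → Z ⊆ A →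
  (∀ z ∈ Z, z ∈ K) → R ⊆ Z → (∀ z ∈ K, z ∈ SG R) → #(A \ Z) + #R ≤ κ → κ ≤ 2 * Nat.card K →
  Sol A κ

/-- [OD sml] Most of `A` in a group of order at most `κ² / 5000`. PROOF. `S_rob` (1) for
`gen Z = AddSubgroup.closure Z`, `V = Z₀`, `d = κ`, `a = 64`, `b = κ (8 log₂ κ + 13)`: there is `Z ⊆ Z₀` with, for
`K = closure Z`, `κ #(Z₀ \ Z) ≤ 128 |K₀| + κ (8 log₂ κ + 13) log₂ |K₀|` (`closure Z₀ ≤ K₀`), so, as
`|K₀| ≤ κ² / 5000`, `log₂ |K₀| ≤ 2 log₂ κ` and `κ` is large, `#(Z₀ \ Z) ≤ 3 κ / 100` and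
`#Z ≥ 92 κ / 100`. Put `m = 64 |K| / κ + 1` (division with remainder), `c = κ / 2`,
`b' = m + 4 log₂ |K| + 8`. Then `κ b' ≤ 64 |K| + κ (8 log₂ κ + 13)`, so for
every `U` with `#U ≤ b'` we have `closure (Z \ U) = K`. `b'` is at most `κ / 50`, so `C = Z \ U` has at least
`c` elements, and `16 |K| ≤ c m`. `S_cov` for `L = K`, `Y = Z`, `s = 1`, `D = {v}` gives `R ⊆ Z` with
`#R ≤ b'` and `K ⊆ SG R`. Apply `S_fin1`: `#(A \ Z) + #R ≤ κ + t - 92 κ / 100 + κ / 50 ≤ κ` (`t ≤ log₂ κ`)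
and `|K| ≥ #Z`. -/
def S_sml : Prop := S_ols → S_cov → S_rob → S_fin1 →
  ∀ (G : Type) [AddCommGroup G] [Fintype G] [DecidableEq G] (κ h t : ℕ),
  Hyp G κ h t → 2 ^ 100 ≤ κ → ∀ (A Z₀ : Finset G) (K₀ : AddSubgroup G), #A = κ + t → Z₀ ⊆ A →
  (∀ z ∈ Z₀, z ∈ K₀) → 95 * κ ≤ 100 * #Z₀ → 5000 * Nat.card K₀ ≤ κ ^ 2 → Sol A κ

/-! ## B. The character -/

/-- [OD st] A small subset `U` such that the set of the signed sums `SG U` has positive density and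
no other element of `Z` makes it grow fast. PROOF. `N = |Γ|`. (1) As long as `2^14 #U < κ` and
`2 #(SG U) ≤ N`: the set `C = {2 a, -2 a | a ∈ Z \ U} ∪ {0}` generates `Γ` (hypothesis, and `N` is odd)
and has at least `#(Z \ U) ≥ κ / 2` elements, so by `S_ols` there is `a ∈ Z \ U` with
`16 bd S (2 a) ≥ min (8 #S, κ / 2)` for `S = SG U` (`8 (N - #S) ≥ 8 #S`; for `-2 a` note
`bd S (-x) = bd S x`; if the element is `0` then `bd = 0`, impossible as `S ≠ ∅`), and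
`#(SG (insert a U)) ≥ #S + bd S (2 a)` (`SG_grow`). So with the first `2^-15 κ` of the steps `#S` becomes at
least `κ / 16` (each step multiplies it by `3/2` as long as it is smaller), and then each step adds at least
`κ / 32`; in `2^-14 κ` steps in total we reach `#(SG U₀) ≥ (2^-15 κ)(κ / 32) = κ² / 2^20 ≥ N / 2^20`, or
`2 #(SG U₀) > N`. (Take `j₁ = 2 log₂ κ + 4` steps for the first part and `κ / 2^14 - j₁` for the second one.)
(2) Among all `U` with `U₀ ⊆ U ⊆ Z` choose one with `κ #(SG U) - 2^14 N #U` maximal (an integer). For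
`a ∈ Z \ U`, comparing with `insert a U`: `κ bd (SG U) (2 a) ≤ 2^14 N`. Comparing with `U₀`:
`2^14 N (#U - #U₀) ≤ κ (#(SG U) - #(SG U₀)) ≤ κ N`, so `#U ≤ #U₀ + κ / 2^14 ≤ κ / 2^13`. And
`#(SG U) ≥ #(SG U₀)` (`SG U` contains a translate of `SG U₀`, `mem_SG_union`). -/
def S_st : Prop := S_ols → ∀ (Γ : Type) [AddCommGroup Γ] [Fintype Γ] [DecidableEq Γ] (κ : ℕ)
  (Z : Finset Γ), Odd (Fintype.card Γ) → 2 ^ 100 ≤ κ → Fintype.card Γ ≤ κ ^ 2 →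
  (∀ Z' ⊆ Z, 2 ^ 13 * #(Z \ Z') ≤ κ → AddSubgroup.closure (Z' : Set Γ) = ⊤) → 8 * κ ≤ 10 * #Z →
  ∃ U ⊆ Z, 2 ^ 13 * #U ≤ κ ∧ Fintype.card Γ ≤ 2 ^ 20 * #(SG U) ∧
    ∀ a ∈ Z \ U, κ * bd (SG U) (a + a) ≤ 2 ^ 14 * Fintype.card Γ

/-- [OD par] Parseval for `bd`. PROOF. `#S - bd S y = #{s ∈ S | s + y ∈ S} =
∑_{s, s' ∈ S} [s + y = s']`, and `N [x = 0] = ∑_χ χ x` (`AddChar.sum_apply_eq_ite`). So
`N (#S - bd S y) = ∑_χ ∑_{s, s'} χ (s + y - s') = ∑_χ χ y (∑_s χ s) conj (∑_{s'} χ s')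
= ∑_χ χ y ‖∑_s χ s‖²` (`χ (-s') = conj (χ s')`). Take the real part; subtract this from the case `y = 0`,
where `bd S 0 = 0`. The second claim is the case `y = 0`. -/
def S_par : Prop := ∀ (Γ : Type) [AddCommGroup Γ] [Fintype Γ] [DecidableEq Γ] (S : Finset Γ),
  (∀ y : Γ, (Fintype.card Γ : ℝ) * bd S y =
    ∑ χ : AddChar Γ ℂ, ‖∑ s ∈ S, χ s‖ ^ 2 * (1 - (χ y).re)) ∧
  (Fintype.card Γ : ℝ) * #S = ∑ χ : AddChar Γ ℂ, ‖∑ s ∈ S, χ s‖ ^ 2

/-- [OD fou] A large Fourier coefficient. PROOF. `N = |Γ|`, `Ŝ χ = ∑_{s ∈ S} χ s`, `B̂ χ = ∑_{y ∈ B} χ y`. Sum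
`S_par` over `y ∈ B`: `∑_χ ‖Ŝ χ‖² (#B - Re (B̂ χ)) = N ∑_{y ∈ B} bd S y ≤ (δ / 8) N² #B`. All terms are `≥ 0`. Let
`T` be the set of the `χ` with `‖B̂ χ‖ ≥ #B / 2`. For `χ ∉ T`, `#B - Re (B̂ χ) ≥ #B / 2`, so
`∑_{χ ∉ T} ‖Ŝ χ‖² ≤ (δ / 4) N²`. By the second part of `S_par` for `B`, `#T (#B)² / 4 ≤ N #B`, so
`#T ≤ 4 N / #B ≤ 4 / β`. By the second part of `S_par` for `S`,
`∑_{χ ∈ T, χ ≠ 0} ‖Ŝ χ‖² ≥ N #S - (#S)² - (δ / 4) N² ≥ N #S / 2 - (δ / 4) N² ≥ (δ / 4) N²` (`2 #S ≤ N`,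
`δ N ≤ #S`; the trivial character, written `0` or `1`, has `Ŝ = #S`). So one of these at most `4 / β` characters has
`‖Ŝ χ‖² ≥ (δ / 4) (β / 4) N²`. -/
def S_fou : Prop := S_par → ∀ (Γ : Type) [AddCommGroup Γ] [Fintype Γ] [DecidableEq Γ]
  (S B : Finset Γ) (δ β : ℝ), 0 < δ → 0 < β → δ * Fintype.card Γ ≤ #S →
  2 * #S ≤ Fintype.card Γ → β * Fintype.card Γ ≤ #B →
  (∀ y ∈ B, (bd S y : ℝ) ≤ δ / 8 * Fintype.card Γ) →
  ∃ χ : AddChar Γ ℂ, (∃ x, χ x ≠ 1) ∧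
    δ * β / 16 * (Fintype.card Γ : ℝ) ^ 2 ≤ ‖∑ s ∈ S, χ s‖ ^ 2

/-- [OD chr] Characters of a group killed by `κ`. PROOF. `(χ x) ^ κ = χ (κ x) = 1`, so `χ x` is a
`κ`-th root of unity, i.e. a power of `exp (2 π i / κ)` (`Complex.isPrimitiveRoot_exp`,
`IsPrimitiveRoot.eq_pow_of_pow_eq_one`), i.e. a value of `ZMod.stdAddChar` (`ZMod.stdAddChar_apply`,
`ZMod.stdAddChar_coe`). Choose `ψ x` with `χ x = stdAddChar (ψ x)`; additivity follows from the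
injectivity of `stdAddChar` (`ZMod.injective_stdAddChar`). -/
def S_chr : Prop := ∀ (Γ : Type) [AddCommGroup Γ] (κ : ℕ) [NeZero κ], (∀ x : Γ, κ • x = 0) →
  ∀ χ : AddChar Γ ℂ, ∃ ψ : Γ →+ ZMod κ, ∀ x, χ x = ZMod.stdAddChar (ψ x)

/-- [OD lin] The character is small at elements of slow growth. PROOF. `N = |Γ|`,
`w = (ψ x).valMinAbs`, `|w| ≤ κ / 2`. We may assume `w ≠ 0`. Let `m = ⌈κ / (4 |w|)⌉ ≥ 1`. If
`4 |w| ≤ κ` then `κ / 4 ≤ m |w| ≤ κ / 4 + |w| ≤ κ / 2`; if `4 |w| > κ` then `m = 1` and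
`κ / 4 < m |w| ≤ κ / 2`. So `Re χ (m x) = cos (2 π m w / κ) ≤ 0` for `χ = stdAddChar ∘ ψ` (an `AddChar`;
`ZMod.stdAddChar_coe`). By `S_par` (all terms are `≥ 0`) `N bd S (m x) ≥ ‖Ŝ χ‖² ≥ N² / 2^64`, and
`bd S (m x) ≤ m bd S x` (`bd_add`). So `m bd S x ≥ N / 2^64`; with `κ bd S x ≤ 2^14 N` this gives
`m ≥ κ / 2^78`. As `m ≤ κ / (4 |w|) + 1` and `κ ≥ 2^79`, `κ / (4 |w|) ≥ κ / 2^78 - 1 ≥ κ / 2^79`, so
`|w| ≤ 2^77`. -/
def S_lin : Prop := S_par → ∀ (Γ : Type) [AddCommGroup Γ] [Fintype Γ] [DecidableEq Γ] (κ : ℕ)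
  [NeZero κ] (S : Finset Γ) (ψ : Γ →+ ZMod κ) (x : Γ), 2 ^ 79 ≤ κ →
  (Fintype.card Γ : ℝ) ^ 2 / 2 ^ 64 ≤ ‖∑ s ∈ S, ZMod.stdAddChar (ψ s)‖ ^ 2 →
  κ * bd S x ≤ 2 ^ 14 * Fintype.card Γ → (ψ x).valMinAbs.natAbs ≤ 2 ^ 77

/-- [OD cc] PROOF. `N = |Γ|`. Let `C = {2 a, -2 a | a ∈ V} ∪ {0}`: `closure C = ⊤` (`N` is odd, `a` is a
multiple of `2 a`), `#C ≥ #V ≥ κ / 2`. Let `n = κ / 2^39` (division with remainder) and
`B = ball C (3 n + 1)`. By `bd_ball`, `κ bd S y ≤ (3 n + 1) 2^14 N` for `y ∈ B`, and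
`(3 n + 1) 2^37 ≤ κ` (`κ ≥ 2^39`), so `bd S y ≤ N / 2^23`. By `ball_card` `B = univ` or
`#B ≥ (n + 1) #C ≥ (κ / 2^39) (κ / 2) = κ² / 2^40 ≥ N / 2^40`. `S_fou` for `δ = 2^-20`, `β = 2^-40`: a character
`χ`, not trivial, with `‖∑_S χ‖² ≥ 2^-64 N²`. Take `ψ` from `S_chr` and `φ = ψ + ψ`, `φ a = ψ (a + a)`. By `S_lin`
for `x = a + a`: `|φ a| ≤ 2^77` for `a ∈ V`. `φ ≠ 0`: otherwise `2 ψ x = 0` for all `x`, so `ψ x = 0` (`κ` is odd)
and `χ` is trivial. -/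
def S_cc : Prop := S_par → S_fou → S_chr → S_lin →
  ∀ (Γ : Type) [AddCommGroup Γ] [Fintype Γ] [DecidableEq Γ]
  (κ : ℕ) [NeZero κ] (V S : Finset Γ), Odd κ → Odd (Fintype.card Γ) → 2 ^ 100 ≤ κ →
  Fintype.card Γ ≤ κ ^ 2 → (∀ x : Γ, κ • x = 0) → 2 * #S ≤ Fintype.card Γ →
  Fintype.card Γ ≤ 2 ^ 20 * #S → AddSubgroup.closure (V : Set Γ) = ⊤ → κ ≤ 2 * #V →
  (∀ a ∈ V, κ * bd S (a + a) ≤ 2 ^ 14 * Fintype.card Γ) →
  ∃ φ : Γ →+ ZMod κ, φ ≠ 0 ∧ ∀ a ∈ V, (φ a).valMinAbs.natAbs ≤ 2 ^ 77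

/-- [OD inv] The inverse theorem. PROOF. `S_st` for `Z` gives `U₁`. If `2 #(SG U₁) ≤ N` then `S_cc` for
`V = Z \ U₁`, `S = SG U₁` (`#V ≥ 9 κ / 10 - κ / 2^13 ≥ κ / 2`; `closure V = ⊤` by hypothesis) gives the second
alternative. Otherwise apply `S_st` to `Z₁ = Z \ U₁` (if `Z' ⊆ Z₁` and `2^13 #(Z₁ \ Z') ≤ κ` then
`2^12 #(Z \ Z') ≤ κ`; `#Z₁ ≥ 8 κ / 10`), which gives `U₂`. If `2 #(SG U₂) ≤ N` use `S_cc` for
`V = Z \ (U₁ ∪ U₂)`, `S = SG U₂`. Otherwise `SG U₁` and `SG U₂` both have more than `N / 2` elements, so every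
`z ∈ Γ` is `a + b` with `a ∈ SG U₁`, `b ∈ SG U₂` (the sets `SG U₁` and `z - SG U₂` intersect), and
`R = U₁ ∪ U₂` works (`mem_SG_union`). -/
def S_inv : Prop := S_ols → S_st → S_par → S_fou → S_chr → S_lin → S_cc →
  ∀ (Γ : Type) [AddCommGroup Γ] [Fintype Γ] [DecidableEq Γ]
  (κ : ℕ) [NeZero κ] (Z : Finset Γ), Odd κ → Odd (Fintype.card Γ) → 2 ^ 100 ≤ κ →
  Fintype.card Γ ≤ κ ^ 2 → (∀ x : Γ, κ • x = 0) → 9 * κ ≤ 10 * #Z →
  (∀ Z' ⊆ Z, 2 ^ 12 * #(Z \ Z') ≤ κ → AddSubgroup.closure (Z' : Set Γ) = ⊤) →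
  (∃ R ⊆ Z, 2 ^ 12 * #R ≤ κ ∧ ∀ z, z ∈ SG R) ∨
  (∃ φ : Γ →+ ZMod κ, φ ≠ 0 ∧ ∃ V ⊆ Z, 2 ^ 12 * #(Z \ V) ≤ κ ∧
    ∀ a ∈ V, (φ a).valMinAbs.natAbs ≤ 2 ^ 77)

/-- The conclusion of `S_inv` as a statement (without its hypotheses). -/
def C_inv : Prop := ∀ (Γ : Type) [AddCommGroup Γ] [Fintype Γ] [DecidableEq Γ]
  (κ : ℕ) [NeZero κ] (Z : Finset Γ), Odd κ → Odd (Fintype.card Γ) → 2 ^ 100 ≤ κ →
  Fintype.card Γ ≤ κ ^ 2 → (∀ x : Γ, κ • x = 0) → 9 * κ ≤ 10 * #Z →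
  (∀ Z' ⊆ Z, 2 ^ 12 * #(Z \ Z') ≤ κ → AddSubgroup.closure (Z' : Set Γ) = ⊤) →
  (∃ R ⊆ Z, 2 ^ 12 * #R ≤ κ ∧ ∀ z, z ∈ SG R) ∨
  (∃ φ : Γ →+ ZMod κ, φ ≠ 0 ∧ ∃ V ⊆ Z, 2 ^ 12 * #(Z \ V) ≤ κ ∧
    ∀ a ∈ V, (φ a).valMinAbs.natAbs ≤ 2 ^ 77)

/-- [OD ivh] The inverse theorem for a subgroup `H` of `G`. PROOF. Let `Γ = ↥H`, and let `Z̃` be the finite
set of the elements of `Z` as elements of `H` (`Finset.subtype` or `Finset.attach` and `image`). `#Z̃ = #Z`, and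
for `Z̃' ⊆ Z̃` the closure in `H` is everything iff the closure of the image in `G` is `H`. Apply `C_inv`. In
the first case take the image of `R̃` (signed sums commute with the inclusion). In the second case let
`H' = (ker φ).map H.subtype`, `w a = (φ ⟨a, _⟩).valMinAbs` for `a ∈ H` and `w a = 0` otherwise, `V` the image of `Ṽ`.
(a) `∑_V n a w a = 0` gives `φ (∑_V n a • a) = ∑_V n a φ(a) = ∑_V n a (w a : ZMod κ) = 0`
(`ZMod.coe_valMinAbs`). (b) `|H'| = |ker φ|` and `|H| = |ker φ| |range φ|`. As `closure Ṽ = ⊤`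
(robustness of `Z`) and `φ ≠ 0` there is `a ∈ Ṽ` with `φ a ≠ 0`; put `j = |φ a| = |w a| ≤ 2^77`. The
order `o` of `φ a` in `ZMod κ` satisfies `κ ∣ o w a`, `o |w a| ≥ κ`, so `|range φ| ≥ o ≥ κ / 2^77` and
`|ker φ| κ ≤ 2^77 |ker φ| |range φ| = 2^77 |H| ≤ 2^77 κ²`. -/
def S_ivh : Prop := C_inv → ∀ (G : Type) [AddCommGroup G] [Fintype G] [DecidableEq G]
  (κ : ℕ) (H : AddSubgroup G) (Z : Finset G), Odd κ → Odd (Nat.card G) → 2 ^ 100 ≤ κ →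
  Nat.card H ≤ κ ^ 2 → (∀ x : G, κ • x = 0) → 9 * κ ≤ 10 * #Z → (∀ z ∈ Z, z ∈ H) →
  (∀ Z' ⊆ Z, 2 ^ 12 * #(Z \ Z') ≤ κ → AddSubgroup.closure (Z' : Set G) = H) →
  (∃ R ⊆ Z, 2 ^ 12 * #R ≤ κ ∧ ∀ z ∈ H, z ∈ SG R) ∨
  (∃ (V : Finset G) (H' : AddSubgroup G) (w : G → ℤ), V ⊆ Z ∧ 2 ^ 12 * #(Z \ V) ≤ κ ∧
    (∀ a ∈ V, (w a).natAbs ≤ 2 ^ 77) ∧
    (∀ n : G → ℤ, ∑ a ∈ V, n a * w a = 0 → ∑ a ∈ V, n a • a ∈ H') ∧
    Nat.card H' ≤ 2 ^ 77 * κ)

/-- The conclusion of `S_sml`. -/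
def C_sml : Prop := ∀ (G : Type) [AddCommGroup G] [Fintype G] [DecidableEq G] (κ h t : ℕ),
  Hyp G κ h t → 2 ^ 100 ≤ κ → ∀ (A Z₀ : Finset G) (K₀ : AddSubgroup G), #A = κ + t → Z₀ ⊆ A →
  (∀ z ∈ Z₀, z ∈ K₀) → 95 * κ ≤ 100 * #Z₀ → 5000 * Nat.card K₀ ≤ κ ^ 2 → Sol A κ

/-- The conclusion of `S_ivh`. -/
def C_ivh : Prop := ∀ (G : Type) [AddCommGroup G] [Fintype G] [DecidableEq G]
  (κ : ℕ) (H : AddSubgroup G) (Z : Finset G), Odd κ → Odd (Nat.card G) → 2 ^ 100 ≤ κ →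
  Nat.card H ≤ κ ^ 2 → (∀ x : G, κ • x = 0) → 9 * κ ≤ 10 * #Z → (∀ z ∈ Z, z ∈ H) →
  (∀ Z' ⊆ Z, 2 ^ 12 * #(Z \ Z') ≤ κ → AddSubgroup.closure (Z' : Set G) = H) →
  (∃ R ⊆ Z, 2 ^ 12 * #R ≤ κ ∧ ∀ z ∈ H, z ∈ SG R) ∨
  (∃ (V : Finset G) (H' : AddSubgroup G) (w : G → ℤ), V ⊆ Z ∧ 2 ^ 12 * #(Z \ V) ≤ κ ∧
    (∀ a ∈ V, (w a).natAbs ≤ 2 ^ 77) ∧
    (∀ n : G → ℤ, ∑ a ∈ V, n a * w a = 0 → ∑ a ∈ V, n a • a ∈ H') ∧
    Nat.card H' ≤ 2 ^ 77 * κ)

/-- [OD big] A solution, or a strip. PROOF. Let `gen Z = AddSubgroup.closure Z`, `b = κ / 2^11`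
(division with remainder), `M = 14`. (a) Suppose there is `Z ⊆ A` with `#(A \ Z) ≤ 15 b` and
`log₂ |gen A| > log₂ |gen Z| + 14`. Then `|gen Z| < 2 ^ (log₂ |gen Z| + 1) ≤ 2 ^ (log₂ |gen A| - 14) ≤ |G| / 2^14
≤ κ² / 2^14 ≤ κ² / 5000` and `#Z ≥ κ - 15 κ / 2^11 ≥ 95 κ / 100`: `C_sml`. (b) Otherwise `S_rob` (2) gives
`Z ⊆ A` with `#(A \ Z) ≤ 14 b`, such that `closure Z' = closure Z = H` for all `Z' ⊆ Z` with `#(Z \ Z') ≤ b`, in
particular if `2^11 #(Z \ Z') ≤ κ`. If `5000 |H| ≤ κ²`: `C_sml` again. Otherwise apply `C_ivh` to `H`, `Z`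
(`|H| ≤ |G| = h κ ≤ κ²`; `|G|` is odd because `κ` is odd and `κ G = 0`). In the first case `S_fin1` with `K = H`:
`#(A \ Z) + #R ≤ κ` and `κ ≤ 2 |H|` as `|H| ≥ #Z`. In the second case `Strip V H H' w κ`: `rob` because
`V' ⊆ V`, `2^12 #(V \ V') ≤ κ`, `2^12 #(Z \ V) ≤ κ` give `2^11 #(Z \ V') ≤ κ`. And
`#(A \ V) ≤ 14 κ / 2^11 + κ / 2^12 ≤ κ / 100`. -/
def S_big : Prop := S_rob → S_fin1 → C_sml → C_ivh →
  ∀ (G : Type) [AddCommGroup G] [Fintype G] [DecidableEq G] (κ h t : ℕ),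
  Hyp G κ h t → 2 ^ 100 ≤ κ → ∀ A : Finset G, #A = κ + t →
  Sol A κ ∨ ∃ (V : Finset G) (H H' : AddSubgroup G) (w : G → ℤ), V ⊆ A ∧
    100 * #(A \ V) ≤ κ ∧ Strip V H H' w κ

/-! ## C. The structure of the strip -/

/-- [OD dif] Many differences. PROOF. `w` takes at most `2 K + 1` values on `Z`, so one of them, `i`,
is taken at least `#Z / (2 K + 1)` times. Fix `b ∈ Z` with `w b = i` and let `C` be the set of the differences
`a - b`, `a ∈ Z`, `w a = i`. For `a ≠ b` take `P = {a}`, `N = {b}`, for `a = b` take `P = N = ∅`. -/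
def S_dif : Prop := ∀ (G : Type) [AddCommGroup G] [DecidableEq G] (w : G → ℤ) (K : ℕ)
  (Z : Finset G), (∀ a ∈ Z, (w a).natAbs ≤ K) → ∃ C : Finset G, #Z ≤ (2 * K + 1) * #C ∧
  ∀ v ∈ C, ∃ P N : Finset G, P ⊆ Z ∧ N ⊆ Z ∧ Disjoint P N ∧ #P + #N ≤ 2 ∧
    ∑ x ∈ P, w x = ∑ x ∈ N, w x ∧ v = ∑ x ∈ P, x - ∑ x ∈ N, x

/-- [OD bs1] PROOF. `K = 2^77`, `s = 2^78`, classes = sets of equal `|w|`. (1) Let `V₀` be the set of the `a ∈ V` whose
class in `V` has at least `κ / 2^91` elements. There are at most `K + 1` classes, so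
`2^91 #(V \ V₀) ≤ (K + 1) κ`, `2^13 #(V \ V₀) ≤ κ`. The class in `V₀` of `a ∈ V₀` is its class in `V`. (2) `S_rob` (2)
for `gen = Lg w s` (monotone), `V₀`, `b = κ / 2^100` (division with remainder), `M = 157`. Its hypothesis: all `Lg w s Z`,
`Z ⊆ V`, are contained in `H'` (`Strip.ker` with `n = 1` on `P`, `-1` on `N`, `0` elsewhere), so
`log₂ |Lg w s V₀| ≤ 77 + log₂ κ`; and for `Z ⊆ V₀` with `#(V₀ \ Z) ≤ 158 b`, `Z` has at least
`κ / 2` elements and by `S_dif` `Lg w s Z` has at least `(κ / 2) / (2 K + 1) ≥ κ / 2^80` elements, so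
`log₂ κ ≤ 80 + log₂ |Lg w s Z|`. We get `V₁ ⊆ V₀` with `#(V₀ \ V₁) ≤ 157 b ≤ κ / 2^92`. The classes in `V₁` have at least
`κ / 2^91 - κ / 2^92` elements, and `2^12 #(V \ V₁) ≤ κ`. -/
def S_bs1 : Prop := S_rob → S_dif → ∀ (G : Type) [AddCommGroup G] [Fintype G] [DecidableEq G]
  (κ : ℕ) (V : Finset G) (H H' : AddSubgroup G) (w : G → ℤ), 2 ^ 500 ≤ κ →
  9 * κ ≤ 10 * #V → Strip V H H' w κ → ∃ V₁ ⊆ V, 2 ^ 12 * #(V \ V₁) ≤ κ ∧
  (∀ a ∈ V₁, κ ≤ 2 ^ 92 * #(V₁.filter fun x => (w x).natAbs = (w a).natAbs)) ∧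
  ∀ Z ⊆ V₁, 2 ^ 100 * #(V₁ \ Z) ≤ κ → Lg w (2 ^ 78) Z = Lg w (2 ^ 78) V₁

/-- [OD bs2] `L` is covered by few elements. PROOF. `s = 2^78`, `L = Lg w s V₁ ≤ H'` (`Strip.ker`),
`|L| ≤ 2^77 κ`, `|L|` is odd. Apply `S_cov` with `Y = V₁`, `b = κ / 2^100`, `c = κ / 2^80` (divisions with
remainder), `m = 2^162`. For `U` with `#U ≤ b` put `Z = V₁ \ U`, and let `C` be the (finite) set of all `v` of the form
`∑ P - ∑ N` with `P, N ⊆ Z` disjoint, `#P + #N ≤ s`, equal sums of `w`. `closure C = Lg w s Z = L`;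
`v ∈ SG (P ∪ N)` (`sub_mem_SG`); by `S_dif` (`K = 2^77`, `#Z ≥ κ / 2`) `C` has at least
`(κ / 2) / (2^78 + 1) ≥ κ / 2^80` elements. `16 |L| ≤ 2^81 κ ≤ c m` because `2 c ≥ κ / 2^80`. Finally
`(m + 4 log₂ |L| + 8) s ≤ (2^162 + 4 (78 + log₂ κ) + 8) 2^78 ≤ b` as `κ ≥ 2^500`. -/
def S_bs2 : Prop := S_ols → S_cov → S_dif →
  ∀ (G : Type) [AddCommGroup G] [Fintype G] [DecidableEq G]
  (κ : ℕ) (V V₁ : Finset G) (H H' : AddSubgroup G) (w : G → ℤ), Odd (Nat.card G) → 2 ^ 500 ≤ κ →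
  Strip V H H' w κ → V₁ ⊆ V → 8 * κ ≤ 10 * #V₁ →
  (∀ Z ⊆ V₁, 2 ^ 100 * #(V₁ \ Z) ≤ κ → Lg w (2 ^ 78) Z = Lg w (2 ^ 78) V₁) →
  ∃ R ⊆ V₁, 2 ^ 100 * #R ≤ κ ∧ ∀ z ∈ Lg w (2 ^ 78) V₁, z ∈ SG R

/-- [OD bs3] Linear structure. PROOF. Let `d` be the greatest common divisor of the `|w a|`, `a ∈ V`
(`d > 0`), `y a = w a / d`. Bézout: there are integers `n_a` with `∑_V n_a w a = d`; `g = ∑_V n_a a`.
(1) If `a, a' ∈ V`, `w a' = ε w a`, `ε = ± 1`, then `a' - ε a ∈ L`: for `a ≠ a'` this is `±` the signed sum of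
`P ∪ N = {a, a'}`, two elements, with weight `0`. (For `a = a'`, `ε = 1` it is `0`; for `a = a'`, `ε = -1` we have
`w a = 0`, and `a ∈ L` because of `P = {a}`, `N = ∅`.) (2) For all `a, b ∈ V`: `y b • a - y a • b ∈ L`. If
`|w a| = |w b|` this follows from (1) (`y b = ε y a`, `y b a - y a b = y a (ε a - b)`). Otherwise let
`i = |y a|`, `j = |y b|`, both at most `K`; choose a set `P₁` of `j` elements of the class of `a` (elements `x` of `V` with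
`|w x| = |w a|`) and a set `P₂` of `i` elements of the class of `b`; `P₁`, `P₂` are disjoint, and
`#P₁ + #P₂ ≤ 2 K`. With signs `ε_x = ± 1` such that `w x = ε_x w a` for `x ∈ P₁` and `w x = ε_x w b` for `x ∈ P₂`, and
`σ = ± 1` such that `j w a = σ i w b`, the sum `∑_{P₁} ε_x x - σ ∑_{P₂} ε_x x` is a signed sum of
`P₁ ∪ P₂` of weight `j w a - σ i w b = 0`, so it is in `L`, and by (1) it is `j a - σ i b` modulo `L`. This is
`± (y b • a - y a • b)`. (If `w a = 0` or `w b = 0` this is also fine, or use (1).) (3) For `a ∈ V`: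
`a - y a • g`: multiply `∑_b n_b w b = d` by... `y a • g = ∑_b n_b y a • b ≡ ∑_b n_b y b • a = (∑_b n_b w b / d) • a = a`
modulo `L`. The other claims are clear (`w a = d y a`). -/
def S_bs3 : Prop := ∀ (G : Type) [AddCommGroup G] [DecidableEq G] (K : ℕ)
  (V : Finset G) (L : AddSubgroup G) (w : G → ℤ), (∀ a ∈ V, (w a).natAbs ≤ K) →
  (∃ a ∈ V, w a ≠ 0) →
  (∀ a ∈ V, K ≤ #(V.filter fun x => (w x).natAbs = (w a).natAbs)) →
  (∀ P N : Finset G, P ⊆ V → N ⊆ V → Disjoint P N → #P + #N ≤ 2 * K →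
    ∑ x ∈ P, w x = ∑ x ∈ N, w x → ∑ x ∈ P, x - ∑ x ∈ N, x ∈ L) →
  ∃ (g : G) (y : G → ℤ), g ∈ AddSubgroup.closure (V : Set G) ∧ (∀ a ∈ V, a - y a • g ∈ L) ∧
  (∀ a ∈ V, (y a).natAbs ≤ K) ∧
  (∀ a b, a ∈ V → b ∈ V → ((y a).natAbs = (y b).natAbs ↔ (w a).natAbs = (w b).natAbs)) ∧
  ∀ d : ℕ, (∀ a ∈ V, d ∣ (y a).natAbs) → d = 1

/-! ## D. Finishing -/

/-- [OD sge] PROOF. For `a ∈ E` let `ε_a = 1` if `a - e ∈ L` and `ε_a = -1` otherwise (then `a + e ∈ L`), so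
`ε_a a - e ∈ L`. Let `#E = 2 n`; `|k| ≤ n`. Choose `E₁ ⊆ E` with `#E₁ = n + k`. The signed sum
`∑_{E₁} ε_a a - ∑_{E \ E₁} ε_a a` is `(n + k) e - (n - k) e = 2 k e` modulo `L`. -/
def S_sge : Prop := ∀ (G : Type) [AddCommGroup G] [DecidableEq G] (L : AddSubgroup G) (e : G)
  (E : Finset G) (k : ℤ), (∀ a ∈ E, a - e ∈ L ∨ a + e ∈ L) → Even #E → 2 * k.natAbs ≤ #E →
  ∃ v ∈ SG E, v - (2 * k) • e ∈ L

/-- [OD fin2] PROOF. `|G|` is odd. Let `X = A \ (R ∪ E)`. A state of level `j` is a set `W ⊆ X` with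
`#W ≡ #W₀` mod `2` such that there are `z ∈ SG W` and an integer `k` with `|k| ≤ j m` and `z + 2 k e ∈ L`.
(a) If `W` is a state of level `j` and `C = X \ W` satisfies `(m + 1) 2 ^ #C > 2 |G/L|` then there is a state `W'` of
level `j + 1` with `W ⊆ W'`, `#W' ≥ #W + 2`: two different pairs `(k₁, S₁) ≠ (k₂, S₂)`, `0 ≤ k_i ≤ m`, `S_i ⊆ C`, have
the same image under `(k, S) ↦ (2 k e + ∑ S mod L, #S mod 2)`. If `S₁ = S₂` then `2 (k₁ - k₂) e ∈ L`, so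
`(k₁ - k₂) e ∈ L` (`|G/L|` is odd), contradiction to the hypothesis on `e`. So `D = (S₁ \ S₂) ∪ (S₂ \ S₁)` is
not empty, of even size, and `∑ S₁ - ∑ S₂ ∈ SG D`. Take `W' = W ∪ D`, `z' = z + ∑ S₁ - ∑ S₂`,
`k' = k + k₁ - k₂`. (b) In the same way (with all `k_i = 0`): if `W` is a state of level `0` of maximal size, then
`2 ^ #(X \ W) ≤ 2 |G/L| ≤ 2 |G|`, so `#(X \ W) ≤ log₂ |G| + 1`. (c) Starting with this `W` (`W₀` is a state of level `0`) and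
using (a) repeatedly, we get, for some `j ≤ log₂ |G| + 1`, a state `W` of level `j` with
`(m + 1) 2 ^ #C ≤ 2 |G/L|`. Multiply by `|L|`: `(m + 1) |L| 2 ^ #C ≤ 2 h κ`, and `κ ≤ (m + 1) |L|`, so
`2 ^ #C ≤ 2 h < 2 ^ (t + 2)`, `#C ≤ t + 1`. (d) `T = #R + #E + #W = #A - #C ≥ κ - 1`. `T` is odd
(`#E` is even, `#R + #W₀` is odd) and `κ` is odd, so `T ≥ κ`; let `T - κ = x`, an even number, at most `t`. Let
`E' ⊆ E` with `#E' = #E - x ≥ 2 m (log₂ |G| + 2) ≥ 2 |k|`. By `S_sge` there is `v ∈ SG E'` with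
`v - 2 k e ∈ L`; so `z + v ∈ L`, and `- (z + v) ∈ SG R`. So `0 ∈ SG (R ∪ E' ∪ W)`, a set of `κ` elements. -/
def S_fin2 : Prop := S_sge → ∀ (G : Type) [AddCommGroup G] [Fintype G] [DecidableEq G]
  (κ h t : ℕ), Hyp G κ h t → ∀ (A R E W₀ : Finset G) (L : AddSubgroup G) (e : G) (m : ℕ),
  #A = κ + t → R ⊆ A → E ⊆ A → W₀ ⊆ A → Disjoint R E → Disjoint R W₀ → Disjoint E W₀ →
  (∀ z ∈ L, z ∈ SG R) → (∀ a ∈ E, a - e ∈ L ∨ a + e ∈ L) → κ ≤ (m + 1) * Nat.card L →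
  (∀ k : ℕ, 0 < k → k ≤ m → k • e ∉ L) → Even #E →
  2 * (t + m * (Nat.log 2 (Nat.card G) + 2)) ≤ #E → Odd (#R + #W₀) →
  (∃ z ∈ SG W₀, z ∈ L) → Sol A κ

/-- [OD bez] Small Bézout coefficients. PROOF. There are integers `x_i` with `∑_I x_i i = 1` (the gcd of
`I` is `1`; e.g. `Finset.gcd` and the ideal generated, or induction), hence with `∑ x_i i = ρ`. `I`
contains some `i₁ > 0` (otherwise `d = 2` divides all). For `i ≠ i₁` replace `x_i` by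
`x_i mod i₁ ∈ [0, i₁)` and change `x_{i₁}` accordingly. Then `|x_i| < i₁ ≤ K` for `i ≠ i₁` and
`x_{i₁} i₁ = ρ - ∑_{i ≠ i₁} x_i i` has absolute value at most `K + K · K · K` (at most `K` different
positive `i`), so `|x_{i₁}| ≤ 2 K³`. -/
def S_bez : Prop := ∀ (K ρ : ℕ) (I : Finset ℕ), 0 < K → (∀ i ∈ I, i ≤ K) →
  (∀ d : ℕ, (∀ i ∈ I, d ∣ i) → d = 1) → ρ ≤ K →
  ∃ x : ℕ → ℤ, (∀ i ∈ I, (x i).natAbs ≤ 2 * K ^ 3) ∧ ∑ i ∈ I, x i * i = ρ

/-- [OD odd] A signed zero-sum modulo `L` with an odd number of elements. PROOF. Class of `a`: all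
`x ∈ V` with `|y x| = |y a|`. For `x ∈ V` let `ε_x = ± 1` with `y x = ε_x |y x|`, so `ε_x x ≡ |y x| g` mod `L`.
(1) Suppose some `y a` is even. By `Lin.gcd` (with `d = 2`) some `y b` is odd. Let `i = |y a|`,
`j = |y b|`, `≤ K`; choose `j` elements `P₁` of the class of `a` and `i` elements `P₂` of the class of `b` (the
classes have at least `θ ≥ K` elements and are disjoint). `∑_{P₁} ε_x x - ∑_{P₂} ε_x x ≡ (j i - i j) g = 0`, and
`i + j` is odd. (2) Suppose all `y a` are odd. Let `I` be the set of the values `|y a|`, `#I ≤ K`. Choose for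
every `i ∈ I` a set `Q_i` of `2 K³` elements of the class, `Q = ⋃ Q_i`, `E = V \ Q`. `∑_Q |y| ≤ K · 2 K³ · K ≤ 4 K⁵`, so
`∑_E |y| ≥ n`. Let `E' ⊆ E` be a subset of maximal size with `∑_{E'} |y| ≤ n`, and
`ρ = n - ∑_{E'} |y|`. Then `0 ≤ ρ ≤ K`: if `E' = E` then `ρ = 0`, otherwise adding another element gives more
than `n`. By `S_bez`, `ρ = ∑_I x_i i`, `|x_i| ≤ 2 K³`; take `|x_i|` elements of `Q_i`, with the signs
`ε_x · sign x_i`, and the elements `x` of `E'` with the signs `ε_x`. The signed sum is `n g ≡ 0` modulo `L`, and the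
number of the elements is congruent mod `2` to the sum of the (odd) numbers `± |y x|`, which is `n`, odd. -/
def S_odd : Prop := S_bez → ∀ (G : Type) [AddCommGroup G] [DecidableEq G] (V : Finset G)
  (L : AddSubgroup G) (g : G) (y : G → ℤ) (K θ n : ℕ), 0 < K → Lin V L g y K θ →
  2 * K ^ 3 ≤ θ → Odd n → n • g ∈ L →
  ((∃ a ∈ V, Even (y a)) ∨ n + 4 * K ^ 5 ≤ ∑ a ∈ V, (y a).natAbs) →
  ∃ W ⊆ V, Odd #W ∧ ∃ z ∈ SG W, z ∈ L

/-- [OD spr] The special case: `G / L` is cyclic of order `κ`. PROOF. `|G|` is odd. The elements of `V` are in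
`(g + L) ∪ (-g + L)`, so `95 κ / 100 ≤ #V ≤ 2 |L|`. The image of `g` in `G/L` has the order `κ`, so
`κ ∣ |G/L|`; from `|G/L| |L| = h κ` we get `h = j |L|`, `|G/L| = j κ`. `j` is odd and
`j ≤ h / |L| ≤ κ / |L| ≤ 200 / 95 < 3`, so `j = 1`, `h = |L|` and `G/L` is generated by the image of `g`. The map
`ZMod κ → G/L`, `i ↦ i g` is an isomorphism; compose its inverse with `G → G/L`. -/
def S_spr : Prop := ∀ (G : Type) [AddCommGroup G] [Fintype G] [DecidableEq G] (κ h t : ℕ),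
  Hyp G κ h t → 3 ≤ κ → ∀ (V : Finset G) (L : AddSubgroup G) (g : G),
  (∀ a ∈ V, a - g ∈ L ∨ a + g ∈ L) → 95 * κ ≤ 100 * #V →
  (∀ k : ℕ, 0 < k → k < κ → k • g ∉ L) →
  ∃ π : G →+ ZMod κ, π g = 1 ∧ (∀ x, π x = 0 ↔ x ∈ L) ∧ Nat.card L = h

/-! ## E. The special case -/

/-- [OD sp2] Covering `L` in the special case. PROOF. For `a ∈ U` let `n a = a` if `a - g ∈ L` and `n a = -a`
otherwise; `n a ∈ g + L`. Apply `S_cov` with `Y = U`, `s = 2`, `b = κ / 2^10`, `c = κ / 4` (divisions with remainder),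
`m = 80`. Let `#U' ≤ b`; `#(U \ U') ≥ 89 κ / 100`, and `n` is at most two to one (`n a = n a'` gives
`a = ± a'`), so `n` takes at least `44 κ / 100` values on `U \ U'`. Let `C = {n a - n a' | a, a' ∈ U \ U'}`. For a fixed
`a'` this gives `44 κ / 100 ≥ c` elements. `M = closure C ≤ L`, and all `n a` are in one coset of `M`, so
`|M| ≥ 44 κ / 100`; if `M ≠ L` then `|M| ≤ |L| / 3 ≤ κ / 3` (`|L|` is odd), contradiction. For `v = n a - n a'` with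
`a ≠ a'` take `D = {a, a'}` (`v = ± a ∓ a'` is a signed sum of `D`), for `a = a'` `D = ∅`.
`16 |L| ≤ 16 κ ≤ c m`, `(m + 4 log₂ |L| + 8) 2 ≤ b`. -/
def S_sp2 : Prop := S_ols → S_cov → ∀ (G : Type) [AddCommGroup G] [Fintype G] [DecidableEq G]
  (κ : ℕ) (U : Finset G) (L : AddSubgroup G) (g : G), Odd (Nat.card G) → 2 ^ 100 ≤ κ →
  (∀ a ∈ U, a - g ∈ L ∨ a + g ∈ L) → 9 * κ ≤ 10 * #U → Nat.card L ≤ κ →
  ∃ R ⊆ U, 2 ^ 10 * #R ≤ κ ∧ ∀ z ∈ L, z ∈ SG R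

/-- [OD jsm] PROOF. `J v` is odd, `1 ≤ J v ≤ κ`, and `(J v : ZMod κ) = ε v`, `ε = ± 1`. (For `v = 0`: `J = κ`.) So for
every `W ⊆ X` the element `z = ∑_W ε_a a ∈ SG W` satisfies `π z = ∑_W J (π a)` (cast), and `#W ≡ ∑_W J (π a)` mod `2`. So it
suffices to find `W ⊆ X` with `∑_W J (π a) = κ`. Let `X₁` be the set of the `a ∈ X` with `J = 1`, `u = #X₁`, `X₂` the rest.
If some `a ∈ X₂` has `J (π a) ≥ κ - u`: take `W = {a}` and `κ - J (π a) ≤ u` elements of `X₁`. Otherwise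
`J (π a) < κ - u` for all `a ∈ X₂`. Let `X' ⊆ X₂` be of maximal size with `s = ∑_{X'} J ≤ κ`. If
`s + u ≥ κ` take `W = X'` and `κ - s` elements of `X₁`. Otherwise `s + u < κ ≤ ∑_X J`, so `X' ≠ X₂` and there is
`a ∈ X₂ \ X'` with `s + J (π a) > κ`, so `s > u` and `s + u > 2 u ≥ κ`, contradiction. -/
def S_jsm : Prop := ∀ (G : Type) [AddCommGroup G] [DecidableEq G] (κ : ℕ) [NeZero κ]
  (π : G →+ ZMod κ) (X : Finset G), Odd κ → κ ≤ 2 * #(X.filter fun a => J (π a) = 1) →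
  κ ≤ ∑ a ∈ X, J (π a) → ∃ W ⊆ X, Odd #W ∧ ∃ z ∈ SG W, π z = 0

/-- [OD rsm] Sums of `t` elements. PROOF. `h = |Λ|`. (0) Let `O' ⊆ s` be any subset with `t - 26`
elements and `s' = s \ O'`, `#s' ≥ 89 h / 100`. Let `n₁` be the number of the values taken once by `f` on `s'` and
`n₂` the number of those taken twice, `n₁ + 2 n₂ = #s'`. There are disjoint `a, b ⊆ s'` such that `f` is
injective on `a` and on `b` and both have at least `n₂ + (n₁ - 1) / 2 ≥ 44 h / 100` elements (of a value taken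
twice put one preimage in `a` and one in `b`; distribute the values taken once; or: take for `b` a maximal
subset of `s'` of size at most `#s' / 2` on which `f` is injective such that ..., any way is fine).
Split `a` into `a₁`, `a₂` with at least `21 h / 100` elements each. (1) Claim: if `b' ⊆ b` has at least
`4 h / 10` elements and `S ⊆ Λ` satisfies `21 h / 100 ≤ #S`, `2 #S ≤ h`, then there are `c ≠ c'` in `b'` such that
`S' = (S + f c) ∪ (S + f c')` has at least `#S + h / 40` elements. Proof: `C = {f c' - f c | c, c' ∈ b'}` is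
symmetric, contains `0`, has at least `4 h / 10` elements, and generates `Λ`: all `f c` are in one coset of
`M = closure C`, and if `M ≠ Λ` then `|M| ≤ h / 3` (`h` is odd). By `S_ols` there is `x = f c' - f c` with
`16 bd S x ≥ min (8 · 21 h / 100, 8 h / 2, 4 h / 10) = 4 h / 10`; `x ≠ 0` because `bd S 0 = 0`. And
`#S' = #S + bd S x` (translate `S'` by `- f c`). (2) Start with `S = f(a₁)` and apply (1) `12` times, each
time with a new pair of elements of `b` (if `2 #S > h` is reached before, take any two new elements, `#S` does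
not decrease). As `21 / 100 + 12 / 40 > 1 / 2` we get pairs `(c_i, c_i')`, `i = 1, ..., 12`, such that more
than half of the elements of `Λ` are of the form `f a' + ∑_i f (c_i or c_i')` with `a' ∈ a₁`. In the same way
for `a₂` with `12` new pairs (altogether `48` elements of `b` are used, `44 h / 100 - 48 ≥ 4 h / 10`). (3) Every
element of `Λ` is the sum of an element of the first and an element of the second of these sets, in
particular `z - ∑_{O'} f`. This gives `13 + 13 = 26` different elements of `s'`; add `O'`. -/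
def S_rsm : Prop := S_ols → ∀ (Λ : Type) [AddCommGroup Λ] [Fintype Λ] [DecidableEq Λ] (ι : Type)
  [DecidableEq ι] (s : Finset ι) (f : ι → Λ) (t : ℕ), Odd (Fintype.card Λ) →
  2 ^ 20 ≤ Fintype.card Λ → (∀ v, #(s.filter fun a => f a = v) ≤ 2) →
  9 * Fintype.card Λ ≤ 10 * #s → 26 ≤ t → 100 * t ≤ Fintype.card Λ →
  ∀ z : Λ, ∃ O ⊆ s, #O = t ∧ ∑ a ∈ O, f a = z

/-- The conclusion of `S_rsm`. -/
def C_rsm : Prop := ∀ (Λ : Type) [AddCommGroup Λ] [Fintype Λ] [DecidableEq Λ] (ι : Type)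
  [DecidableEq ι] (s : Finset ι) (f : ι → Λ) (t : ℕ), Odd (Fintype.card Λ) →
  2 ^ 20 ≤ Fintype.card Λ → (∀ v, #(s.filter fun a => f a = v) ≤ 2) →
  9 * Fintype.card Λ ≤ 10 * #s → 26 ≤ t → 100 * t ≤ Fintype.card Λ →
  ∀ z : Λ, ∃ O ⊆ s, #O = t ∧ ∑ a ∈ O, f a = z

/-- [OD c1b] The direct construction. PROOF. Let `U = {a ∈ A | J (π a) = 1}`, `W = A \ U`. For `a ∈ A` let `n a = ε a`
with `ε = ± 1` and `π (n a) = J (π a)` (`J v` is `v` or `-v` in `ZMod κ`). All `J` are odd, so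
`∑_W J = #W + 2 k` with `k ≤ 35 κ / 1000`. Choose `M ⊆ U` with `#M = k`. Let
`z = ∑_{U \ M} n a - ∑_M n a + ∑_W n a`; `π z = (#U - k) - k + #W + 2 k = #A = t` in `ZMod κ`. Apply `C_rsm` with
`Λ = ↥(ker π)`, `ι = G`, `s = U \ M`, `f a = n a - g` for `a ∈ U` (`π` of this is `0`), the target `z - t g`. The fibres:
`n a = n a'` gives `a = ± a'`. `|Λ| = h`, `#s ≥ 94 κ / 100 - 35 κ / 1000 ≥ 9 h / 10`. `#U ≤ 2 h` (fibres), so
`h ≥ 47 κ / 100` is large and `26 ≤ t`, `100 t ≤ h` as `2 ^ t ≤ h < 2 ^ (t + 1)`. We get `O ⊆ U \ M`, `#O = t`,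
`∑_O n a = z`. So `∑_{U \ (M ∪ O)} n a - ∑_M n a + ∑_W n a = 0`, a signed sum of `#U - t + #W = κ` elements of `A`. -/
def S_c1b : Prop := C_rsm → ∀ (G : Type) [AddCommGroup G] [Fintype G] [DecidableEq G]
  (κ h t : ℕ), Hyp G κ h t → 2 ^ 100 ≤ κ → ∀ (π : G →+ ZMod κ) (g : G) (A : Finset G),
  π g = 1 → Nat.card π.ker = h → #A = κ + t →
  94 * κ ≤ 100 * #(A.filter fun a => J (π a) = 1) →
  100 * ∑ a ∈ A.filter (fun a => ¬ J (π a) = 1), J (π a) ≤ 7 * κ → Sol A κ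

/-- [OD spc] The special case. PROOF. `L = ker π`, `U = {a ∈ A | J (π a) = 1}`. For `a ∈ U` we have `π a = ± 1`, so
`a - g ∈ L` or `a + g ∈ L`. `S_sp2` (`|L| = h ≤ κ`, `#U ≥ 94 κ / 100`) gives `R ⊆ U`, `#R ≤ κ / 2^10`. Choose
`E ⊆ U \ R` with `#E = 2 (t + 2 (log₂ |G| + 2))` (small, because `|G| ≤ κ²`). Let `X = A \ (R ∪ E)`. If `#R` is odd apply
`S_fin2` with `W₀ = ∅`, `e = g`, `m = 2` (`#U ≤ 2 |L|`: the map `a ↦ n a - g ∈ L`, `n a = ± a`, is at most two to one;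
so `3 |L| ≥ κ`; `g, 2 g ∉ L` as `κ > 2`). If `#R` is even and there is `W₀ ⊆ X` with `#W₀` odd and an element of `SG W₀` in
`L`, the same. Otherwise by `S_jsm` for `X` (`u = #{a ∈ X | J (π a) = 1} = #U - #R - #E ≥ 93 κ / 100`,
`2 u ≥ κ`) `∑_X J (π a) < κ`, and `∑_X J = u + ∑_{A \ U} J`, so
`∑_{A \ U} J < κ - u ≤ 7 κ / 100`. Apply `S_c1b`. (`u ≥ 94 κ / 100 - κ / 2^10 - #E ≥ 93 κ / 100`.) -/
def S_spc : Prop := S_ols → S_cov → S_sp2 → S_sge → S_fin2 → S_jsm → C_rsm → S_c1b →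
  ∀ (G : Type) [AddCommGroup G] [Fintype G] [DecidableEq G]
  (κ h t : ℕ), Hyp G κ h t → 2 ^ 100 ≤ κ → ∀ (π : G →+ ZMod κ) (g : G) (A : Finset G),
  π g = 1 → Nat.card π.ker = h → #A = κ + t →
  94 * κ ≤ 100 * #(A.filter fun a => J (π a) = 1) → Sol A κ

/-! ## F. Assembly and lower bound -/

/-- The conclusion of `S_big`. -/
def C_big : Prop := ∀ (G : Type) [AddCommGroup G] [Fintype G] [DecidableEq G] (κ h t : ℕ),
  Hyp G κ h t → 2 ^ 100 ≤ κ → ∀ A : Finset G, #A = κ + t →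
  Sol A κ ∨ ∃ (V : Finset G) (H H' : AddSubgroup G) (w : G → ℤ), V ⊆ A ∧
    100 * #(A \ V) ≤ κ ∧ Strip V H H' w κ

/-- The conclusion of `S_bs1`. -/
def C_bs1 : Prop := ∀ (G : Type) [AddCommGroup G] [Fintype G] [DecidableEq G]
  (κ : ℕ) (V : Finset G) (H H' : AddSubgroup G) (w : G → ℤ), 2 ^ 500 ≤ κ →
  9 * κ ≤ 10 * #V → Strip V H H' w κ → ∃ V₁ ⊆ V, 2 ^ 12 * #(V \ V₁) ≤ κ ∧
  (∀ a ∈ V₁, κ ≤ 2 ^ 92 * #(V₁.filter fun x => (w x).natAbs = (w a).natAbs)) ∧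
  ∀ Z ⊆ V₁, 2 ^ 100 * #(V₁ \ Z) ≤ κ → Lg w (2 ^ 78) Z = Lg w (2 ^ 78) V₁

/-- The conclusion of `S_bs2`. -/
def C_bs2 : Prop := ∀ (G : Type) [AddCommGroup G] [Fintype G] [DecidableEq G]
  (κ : ℕ) (V V₁ : Finset G) (H H' : AddSubgroup G) (w : G → ℤ), Odd (Nat.card G) → 2 ^ 500 ≤ κ →
  Strip V H H' w κ → V₁ ⊆ V → 8 * κ ≤ 10 * #V₁ →
  (∀ Z ⊆ V₁, 2 ^ 100 * #(V₁ \ Z) ≤ κ → Lg w (2 ^ 78) Z = Lg w (2 ^ 78) V₁) →
  ∃ R ⊆ V₁, 2 ^ 100 * #R ≤ κ ∧ ∀ z ∈ Lg w (2 ^ 78) V₁, z ∈ SG R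

/-- The conclusion of `S_spc`. -/
def C_spc : Prop := ∀ (G : Type) [AddCommGroup G] [Fintype G] [DecidableEq G]
  (κ h t : ℕ), Hyp G κ h t → 2 ^ 100 ≤ κ → ∀ (π : G →+ ZMod κ) (g : G) (A : Finset G),
  π g = 1 → Nat.card π.ker = h → #A = κ + t →
  94 * κ ≤ 100 * #(A.filter fun a => J (π a) = 1) → Sol A κ

/-- [OD asm] Assembly of the upper bound. PROOF. `C_big`: a solution or a strip `V`, with `#V ≥ 99 κ / 100`.
`C_bs1`: `V₁`; `L = Lg w (2^78) V₁`; `#(A \ V₁) ≤ κ / 100 + κ / 2^12`. `C_bs2`: `R ⊆ V₁`. There is `a ∈ V₁` with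
`w a ≠ 0`: otherwise by `Strip.ker` all of `V₁` is in `H'`, and by `Strip.rob` `H ≤ H'`,
`κ² / 5000 < |H| ≤ 2^77 κ`, impossible. `S_bs3` for `V₁`, `K = 2^77`: `g`, `y`. By its last claim with `d = 2` not
all `y a` are `0`; fix `a₁ ∈ V₁` with `y a₁ ≠ 0` (the classes of `|y|` are the classes of `|w|`). Put
`e = y a₁ • g`, `m = 2^80`. (i) `κ ≤ (m + 1) |L|`: `S_dif` for `V₁` gives at least `#V₁ / (2^78 + 1) ≥ κ / 2^80`
elements of `L`. (ii) Let `o` be the least positive number with `o g ∈ L`; `o` divides `κ`, so it is odd and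
`o = κ` or `3 o ≤ κ`. `H ⊆ L + ℤ g` (`H` is generated by `V₁`), so `κ² / 5000 < |H| ≤ o |L| ≤ o 2^77 κ` and
`o > κ / 2^90 ≥ 2^157`; `k g ∈ L` implies `o ∣ k` for integers `k`; so `k e ∉ L` for
`0 < k ≤ m`, as `0 < |k y a₁| ≤ 2^80 · 2^77`. (iii) The class of `a₁` in `V₁ \ R` has at least
`κ / 2^92 - κ / 2^100` elements, choose `E` in it with `#E = 2 (t + m (log₂ |G| + 2)) ≤ κ / 2^100`
(`log₂ |G| ≤ 2 log₂ κ`, `κ ≥ 2^500`); its elements are `± e` modulo `L`. Let `V₃ = V₁ \ (R ∪ E)`. Its classes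
have at least `κ / 2^93` elements, and every class of `V₁` occurs, so `Lin V₃ L g y 2^77 (κ / 2^93)`. (iv) If `#R` is odd
apply `S_fin2` with `W₀ = ∅`. (v) Otherwise we need an odd `W₀ ⊆ V₃`: `S_odd` with `n = o`, `K = 2^77`. If some
`y a`, `a ∈ V₃`, is even: done. Otherwise all `|y a| ≥ 1` are odd. If `3 o ≤ κ`:
`∑ |y| ≥ #V₃ ≥ 98 κ / 100 ≥ o + 2^387`. If `o = κ` and at most `95 κ / 100` elements of `V₃` have `|y| = 1`:
`∑ |y| ≥ 3 #V₃ - 2 · 95 κ / 100 ≥ 104 κ / 100 ≥ κ + 2^387`. (vi) If `o = κ` and more than `95 κ / 100` elements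
of `V₃` have `|y| = 1`, they are `± g` modulo `L`; `S_spr` gives `π`, `ker π = L`, and these elements have
`π a = ± 1`, `J (π a) = 1`; so `C_spc` applies. -/
def S_asm : Prop := C_big → C_bs1 → C_bs2 → S_dif → S_bs3 → S_sge → S_fin2 → S_bez → S_odd →
  S_spr → C_spc → ∀ (G : Type) [AddCommGroup G] [Fintype G] [DecidableEq G] (κ h t : ℕ),
  Hyp G κ h t → 2 ^ 500 ≤ κ → ∀ A : Finset G, #A = κ + t → Sol A κ

/-- [OD low] The lower bound. PROOF. `κ` is the exponent of `G`. (1) There is a surjective homomorphism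
`G → ZMod κ`: the group of the characters `AddChar G ℂ` has exponent `κ` (if `χ ^ n = 1` for all `χ` then
`χ (n x) = 1` for all `χ` and `x`, so `n x = 0` by `AddChar.exists_apply_ne_zero` or the like, and `κ ∣ n`), so
there is a character `χ` of order `κ` (`Monoid.exists_orderOf_eq_exponent`); take `ψ` from `S_chr`. The range of `ψ` is a
subgroup of `ZMod κ`, of order `r`, and `r ψ = 0`, so `χ ^ r = 1`, `κ ∣ r` and `ψ` is surjective. (2) Compose with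
`ZMod κ → ZMod h` (`h ∣ κ`) and let `K` be the kernel: `|G/K| = h`, `|K| = κ`, `G/K ≅ ZMod h`. Use
`lower` of `Basic.lean`: `eta K κ + dis (G ⧸ K) ≤ tau G κ`. `eta K κ ≥ κ - 1`: a subset `T` of `K` with `κ - 1` elements has
no subset of `κ` elements (`le_eta`). `dis (G ⧸ K) ≥ log₂ h`: let `x₀` be an element of `G ⧸ K` of order `h`, and
`D = {2^i x₀ | i < t}`, `t = log₂ h`, `2^t ≤ h`. A signed sum of distinct elements of `D`, not empty, is `c x₀`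
with an integer `c ≠ 0`, `|c| ≤ 2^t - 1 < h` (the largest index dominates the others), so it is not `0` (`le_dis`). -/
def S_low : Prop := S_chr → ∀ (G : Type) [AddCommGroup G] [Fintype G] (h : ℕ),
  Nat.card G = h * AddMonoid.exponent G → h ∣ AddMonoid.exponent G →
  AddMonoid.exponent G - 1 + Nat.log 2 h ≤ tau G (AddMonoid.exponent G)

end Pool.Agent.Lib.MP_8ac08c_co.OD
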